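import Pool.Agent.Helper428.PL
import Pool.Agent.Helper428.CoshSqrt

set_option autoImplicit false

namespace Pool.Agent.Results.MP_efa496_an.OverSaturation

open Topology Filter

/-- The case `G = ℂ` of the setting: a submodule `P` of the `ℂ[z]`-module of entire `ℂ^q`-valued
functions, with a Hausdorff locally convex topology in which multiplication by each polynomial is
continuous. The elements of `P` form the topological vector space `E`, and `ev f` is the entire
function given by the element `f`. -/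
structure AnalyticModule (q : ℕ) where
  /-- the elements of `P` -/
  E : Type
  [addCommGroup : AddCommGroup E]
  [module : Module ℂ E]
  [top : TopologicalSpace E]
  [topologicalAddGroup : IsTopologicalAddGroup E]
  [continuousSMul : ContinuousSMul ℂ E]
  [t2Space : T2Space E]
  locallyConvex : LocallyConvexSpace ℝ E
  /-- the function given by an element of `P` -/
  ev : E → ℂ → Fin q → ℂ
  ev_injective : Function.Injective ev
  ev_add : ∀ f g, ev (f + g) = ev f + ev g
  ev_smul : ∀ (c : ℂ) (f : E), ev (c • f) = c • ev f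
  entire : ∀ f, Differentiable ℂ (ev f)
  /-- multiplication by a polynomial -/
  pmul : Polynomial ℂ → E → E
  ev_pmul : ∀ (p : Polynomial ℂ) (f : E) (z : ℂ), ev (pmul p f) z = p.eval z • ev f z
  continuous_pmul : ∀ p : Polynomial ℂ, Continuous (pmul p)

attribute [instance] AnalyticModule.addCommGroup AnalyticModule.module AnalyticModule.top
  AnalyticModule.topologicalAddGroup AnalyticModule.continuousSMul AnalyticModule.t2Space

variable {q : ℕ}

/-- Uniform stability: for every zero-neighbourhood `V` there is a zero-neighbourhood `U` such that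
for all `lam`: if `f ∈ U` and `g = f / (z - lam)` is entire, then `g ∈ V`. -/
def UniformlyStable (P : AnalyticModule q) : Prop :=
  ∀ V ∈ 𝓝 (0 : P.E), ∃ U ∈ 𝓝 (0 : P.E), ∀ (lam : ℂ), ∀ f ∈ U,
    ∀ g : ℂ → Fin q → ℂ, Differentiable ℂ g →
      (∀ z, (z - lam) • g z = P.ev f z) → ∃ g' ∈ V, P.ev g' = g

/-- Condition (3): for `F 0, ..., F (n-1)` in `P`, every entire `f` with
`|f_i| ≤ ∑ |(F m)_i|` for each coordinate `i` is in `P`, and these `f` form a bounded set. -/
def Condition3 (P : AnalyticModule q) : Prop :=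
  ∀ (n : ℕ) (F : Fin n → P.E),
    (∀ f : ℂ → Fin q → ℂ, Differentiable ℂ f →
      (∀ z i, ‖f z i‖ ≤ ∑ m, ‖P.ev (F m) z i‖) → ∃ f', P.ev f' = f) ∧
    Bornology.IsVonNBounded ℂ {f : P.E | ∀ z i, ‖P.ev f z i‖ ≤ ∑ m, ‖P.ev (F m) z i‖}

/-- `I` is a submodule of `P` over the polynomials. -/
def IsSubmodule (P : AnalyticModule q) (I : Submodule ℂ P.E) : Prop :=
  ∀ (p : Polynomial ℂ), ∀ f ∈ I, P.pmul p f ∈ I

/-- The germ of `f` at `lam` lies in `I_lam`, the module generated by the germs of elements of `I`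
over the ring of germs of holomorphic functions at `lam`. -/
def LocalMem (P : AnalyticModule q) (I : Submodule ℂ P.E) (lam : ℂ) (f : ℂ → Fin q → ℂ) : Prop :=
  ∃ (n : ℕ) (h : Fin n → ℂ → ℂ) (g : Fin n → P.E),
    (∀ m, AnalyticAt ℂ (h m) lam) ∧ (∀ m, g m ∈ I) ∧
      ∀ᶠ z in 𝓝 lam, f z = ∑ m, h m z • P.ev (g m) z

/-- `I` is divisorial in `P`. -/
def Divisorial (P : AnalyticModule q) (I : Submodule ℂ P.E) : Prop :=
  ∀ f : P.E, f ∈ I ↔ ∀ lam, LocalMem P I lam (P.ev f)

/-- The germs at `lam` of `u 0, ..., u (k-1)` are linearly independent over the ring of germs of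
holomorphic functions at `lam`. -/
def LocallyIndependent {k : ℕ} (lam : ℂ) (u : Fin k → ℂ → Fin q → ℂ) : Prop :=
  ∀ h : Fin k → ℂ → ℂ, (∀ s, AnalyticAt ℂ (h s) lam) → (∀ᶠ z in 𝓝 lam, ∑ s, h s z • u s z = 0) →
    ∀ s, ∀ᶠ z in 𝓝 lam, h s z = 0

/-- The local rank of `I` is `k`: the largest number of independent elements in a module `I_lam`. -/
def HasLocalRank (P : AnalyticModule q) (I : Submodule ℂ P.E) (k : ℕ) : Prop :=
  (∃ (lam : ℂ) (u : Fin k → ℂ → Fin q → ℂ), (∀ s, LocalMem P I lam (u s)) ∧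
    LocallyIndependent lam u) ∧
  ∀ (lam : ℂ) (u : Fin (k + 1) → ℂ → Fin q → ℂ), (∀ s, LocalMem P I lam (u s)) →
    ¬ LocallyIndependent lam u

/-- The matrix with entries `u^(s)_(j_r) (z)` in row `r` and column `s`. -/
def mat {k : ℕ} (u : Fin k → ℂ → Fin q → ℂ) (J : Fin k ↪o Fin q) (z : ℂ) :
    Matrix (Fin k) (Fin k) ℂ := fun r s => u s z (J r)

/-- `det (u, J) (z)`. -/
noncomputable def detU {k : ℕ} (u : Fin k → ℂ → Fin q → ℂ) (J : Fin k ↪o Fin q) (z : ℂ) : ℂ :=
  (mat u J z).det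

/-- `det_s (f, J) (z)`: column `s` is replaced by `(f_(j_1), ..., f_(j_k))`. -/
noncomputable def detS {k : ℕ} (u : Fin k → ℂ → Fin q → ℂ) (f : ℂ → Fin q → ℂ)
    (J : Fin k ↪o Fin q) (s : Fin k) (z : ℂ) : ℂ :=
  ((mat u J z).updateCol s (fun r => f z (J r))).det

/-- The sum of the moduli of `det_s (f, J) (z) / det (u, J) (z)` over `s`. -/
noncomputable def cramerSum {k : ℕ} (u : Fin k → ℂ → Fin q → ℂ) (f : ℂ → Fin q → ℂ)
    (J : Fin k ↪o Fin q) (z : ℂ) : ℝ :=
  ∑ s, ‖detS u f J s z / detU u J z‖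

/-- The set of values whose infimum enters `M_(f,V) (z)`: `u^(s) ∈ I ∩ V` and
`det (u, J) (z) ≠ 0`. -/
def values (P : AnalyticModule q) (I : Submodule ℂ P.E) (k : ℕ) (f : P.E) (V : Set P.E) (z : ℂ) :
    Set ENNReal :=
  {x | ∃ (u : Fin k → P.E) (J : Fin k ↪o Fin q), (∀ s, u s ∈ I ∧ u s ∈ V) ∧
    detU (fun s => P.ev (u s)) J z ≠ 0 ∧
    x = ENNReal.ofReal (cramerSum (fun s => P.ev (u s)) (P.ev f) J z)}

/-- The majorant `M_(f,V) (z)` with values in `[0, ∞]` (the infimum of the empty set is `∞`). -/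
noncomputable def M (P : AnalyticModule q) (I : Submodule ℂ P.E) (k : ℕ) (f : P.E) (V : Set P.E)
    (z : ℂ) : ENNReal :=
  1 + sInf (values P I k f V z)

/-- `I`, of local rank `k`, is saturated with respect to `f`. -/
def SaturatedWrt (P : AnalyticModule q) (I : Submodule ℂ P.E) (k : ℕ) (f : P.E) : Prop :=
  ∀ V ∈ 𝓝 (0 : P.E), ∀ Φ : ℂ → ℂ, Differentiable ℂ Φ →
    (∀ z, ENNReal.ofReal ‖Φ z‖ ≤ M P I k f V z) → ∃ C : ℝ, ∀ z, ‖Φ z‖ ≤ C

/-- `I`, of local rank `k`, is over-saturated. -/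
def OverSaturated (P : AnalyticModule q) (I : Submodule ℂ P.E) (k : ℕ) : Prop :=
  ∀ f : P.E, SaturatedWrt P I k f

/-! ### Spaces of entire functions given by a decreasing sequence of weights -/

section Weights

variable (W : ℕ → ℂ → Fin q → ℝ)

/-- entire functions bounded by every weight of the family. -/
def wspace : Submodule ℂ (ℂ → Fin q → ℂ) where
  carrier := {f | Differentiable ℂ f ∧ ∀ n, ∃ D : ℝ, ∀ z i, ‖f z i‖ ≤ D * Real.exp (W n z i)}
  zero_mem' := by
    refine ⟨differentiable_const 0, fun n => ⟨0, fun z i => ?_⟩⟩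
    simp
  add_mem' := by
    rintro f g ⟨hf1, hf2⟩ ⟨hg1, hg2⟩
    refine ⟨hf1.add hg1, fun n => ?_⟩
    obtain ⟨D, hD⟩ := hf2 n
    obtain ⟨E, hE⟩ := hg2 n
    refine ⟨D + E, fun z i => ?_⟩
    have h1 := hD z i
    have h2 := hE z i
    calc ‖(f + g) z i‖ = ‖f z i + g z i‖ := rfl
      _ ≤ ‖f z i‖ + ‖g z i‖ := norm_add_le _ _
      _ ≤ (D + E) * Real.exp (W n z i) := by rw [add_mul]; linarith
  smul_mem' := by
    rintro c f ⟨hf1, hf2⟩
    refine ⟨hf1.const_smul c, fun n => ?_⟩
    obtain ⟨D, hD⟩ := hf2 n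
    refine ⟨‖c‖ * D, fun z i => ?_⟩
    have h1 := hD z i
    calc ‖(c • f) z i‖ = ‖c * f z i‖ := rfl
      _ = ‖c‖ * ‖f z i‖ := norm_mul _ _
      _ ≤ ‖c‖ * (D * Real.exp (W n z i)) := by gcongr
      _ = ‖c‖ * D * Real.exp (W n z i) := by ring

lemma mem_wspace {f : ℂ → Fin q → ℂ} : f ∈ wspace W ↔
    Differentiable ℂ f ∧ ∀ n, ∃ D : ℝ, ∀ z i, ‖f z i‖ ≤ D * Real.exp (W n z i) := Iff.rfl

/-- the value of the `n`-th seminorm. -/
noncomputable def snf (n : ℕ) (f : wspace W) : ℝ :=
  ⨆ p : ℂ × Fin q, ‖(f : ℂ → Fin q → ℂ) p.1 p.2‖ * Real.exp (-(W n p.1 p.2))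

lemma snf_bdd (n : ℕ) (f : wspace W) : BddAbove (Set.range
    (fun p : ℂ × Fin q => ‖(f : ℂ → Fin q → ℂ) p.1 p.2‖ * Real.exp (-(W n p.1 p.2)))) := by
  obtain ⟨D, hD⟩ := f.2.2 n
  refine ⟨D, ?_⟩
  rintro _ ⟨p, rfl⟩
  have h1 := hD p.1 p.2
  calc ‖(f : ℂ → Fin q → ℂ) p.1 p.2‖ * Real.exp (-(W n p.1 p.2))
      ≤ (D * Real.exp (W n p.1 p.2)) * Real.exp (-(W n p.1 p.2)) := by gcongr
    _ = D := by rw [mul_assoc, ← Real.exp_add]; simp

lemma snf_nonneg (n : ℕ) (f : wspace W) : 0 ≤ snf W n f :=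
  Real.iSup_nonneg (fun p => by positivity)

lemma le_snf (n : ℕ) (f : wspace W) (z : ℂ) (i : Fin q) :
    ‖(f : ℂ → Fin q → ℂ) z i‖ ≤ snf W n f * Real.exp (W n z i) := by
  have h := le_ciSup (snf_bdd W n f) (z, i)
  simp only at h
  have h' : ‖(f : ℂ → Fin q → ℂ) z i‖ * Real.exp (-(W n z i)) ≤ snf W n f := h
  calc ‖(f : ℂ → Fin q → ℂ) z i‖
      = (‖(f : ℂ → Fin q → ℂ) z i‖ * Real.exp (-(W n z i))) * Real.exp (W n z i) := by
        rw [mul_assoc, ← Real.exp_add]; simp
    _ ≤ _ := by gcongr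

lemma snf_le (n : ℕ) (f : wspace W) (D : ℝ) (hD : 0 ≤ D)
    (h : ∀ z i, ‖(f : ℂ → Fin q → ℂ) z i‖ ≤ D * Real.exp (W n z i)) : snf W n f ≤ D := by
  apply Real.iSup_le _ hD
  intro p
  have h1 := h p.1 p.2
  calc ‖(f : ℂ → Fin q → ℂ) p.1 p.2‖ * Real.exp (-(W n p.1 p.2))
      ≤ (D * Real.exp (W n p.1 p.2)) * Real.exp (-(W n p.1 p.2)) := by gcongr
    _ = D := by rw [mul_assoc, ← Real.exp_add]; simp

/-- the `n`-th seminorm. -/
noncomputable def sn (n : ℕ) : Seminorm ℂ (wspace W) :=
  Seminorm.of (snf W n)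
    (by
      intro f g
      apply snf_le W n _ _ (add_nonneg (snf_nonneg W n f) (snf_nonneg W n g))
      intro z i
      have h1 := le_snf W n f z i
      have h2 := le_snf W n g z i
      calc ‖((f + g : wspace W) : ℂ → Fin q → ℂ) z i‖
          = ‖(f : ℂ → Fin q → ℂ) z i + (g : ℂ → Fin q → ℂ) z i‖ := rfl
        _ ≤ ‖(f : ℂ → Fin q → ℂ) z i‖ + ‖(g : ℂ → Fin q → ℂ) z i‖ := norm_add_le _ _
        _ ≤ _ := by rw [add_mul]; linarith)
    (by
      intro c f
      unfold snf
      rw [Real.mul_iSup_of_nonneg (norm_nonneg c)]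
      congr 1
      funext p
      rw [← mul_assoc, ← norm_mul]
      rfl)

lemma sn_apply (n : ℕ) (f : wspace W) : sn W n f = snf W n f := rfl

/-- the family of seminorms. -/
noncomputable def fam : SeminormFamily ℂ (wspace W) ℕ := fun n => sn W n

/-- the topology given by the family. -/
@[reducible] noncomputable def wtop : TopologicalSpace (wspace W) :=
  (fam W).moduleFilterBasis.topology

lemma hws : @WithSeminorms ℂ (wspace W) ℕ _ _ _ (fam W) (wtop W) :=
  @WithSeminorms.mk ℂ (wspace W) ℕ _ _ _ (fam W) (wtop W) rfl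

variable (H0 : ∀ n m z i, n ≤ m → W m z i ≤ W n z i)
  (c : ℕ → ℝ) (H1 : ∀ n z ζ i, ‖z - ζ‖ ≤ 2 → W n ζ i ≤ W n z i + c n)
  (H2 : ∀ n, ∃ m, ∃ d : ℝ, 0 ≤ d ∧ ∀ z i, ‖z‖ * Real.exp (W m z i) ≤ d * Real.exp (W n z i))

include H0 H2 in
lemma poly_bound (p : Polynomial ℂ) : ∀ n, ∃ m, ∃ d : ℝ, 0 ≤ d ∧ ∀ z i,
    ‖p.eval z‖ * Real.exp (W m z i) ≤ d * Real.exp (W n z i) := by
  induction p using Polynomial.induction_on with
  | C a =>
    intro n
    refine ⟨n, ‖a‖, norm_nonneg a, fun z i => ?_⟩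
    simp
  | add p r hp hr =>
    intro n
    obtain ⟨m1, d1, hd1, h1⟩ := hp n
    obtain ⟨m2, d2, hd2, h2⟩ := hr n
    refine ⟨max m1 m2, d1 + d2, by positivity, fun z i => ?_⟩
    have e1 := Real.exp_le_exp.2 (H0 m1 (max m1 m2) z i (le_max_left _ _))
    have e2 := Real.exp_le_exp.2 (H0 m2 (max m1 m2) z i (le_max_right _ _))
    rw [Polynomial.eval_add]
    calc ‖p.eval z + r.eval z‖ * Real.exp (W (max m1 m2) z i)
        ≤ (‖p.eval z‖ + ‖r.eval z‖) * Real.exp (W (max m1 m2) z i) := by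
          gcongr
          exact norm_add_le _ _
      _ = ‖p.eval z‖ * Real.exp (W (max m1 m2) z i) + ‖r.eval z‖ * Real.exp (W (max m1 m2) z i) := by
          ring
      _ ≤ ‖p.eval z‖ * Real.exp (W m1 z i) + ‖r.eval z‖ * Real.exp (W m2 z i) := by gcongr
      _ ≤ d1 * Real.exp (W n z i) + d2 * Real.exp (W n z i) := add_le_add (h1 z i) (h2 z i)
      _ = _ := by ring
  | monomial k a hp =>
    intro n
    obtain ⟨m1, d1, hd1, h1⟩ := hp n
    obtain ⟨m2, d2, hd2, h2⟩ := H2 m1
    refine ⟨m2, d1 * d2, by positivity, fun z i => ?_⟩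
    have e1 := h1 z i
    have e2 := h2 z i
    have : (Polynomial.C a * Polynomial.X ^ (k + 1)).eval z =
        (Polynomial.C a * Polynomial.X ^ k).eval z * z := by
      simp [pow_succ]
      ring
    rw [this, norm_mul]
    calc ‖(Polynomial.C a * Polynomial.X ^ k).eval z‖ * ‖z‖ * Real.exp (W m2 z i)
        = ‖(Polynomial.C a * Polynomial.X ^ k).eval z‖ * (‖z‖ * Real.exp (W m2 z i)) := by ring
      _ ≤ ‖(Polynomial.C a * Polynomial.X ^ k).eval z‖ * (d2 * Real.exp (W m1 z i)) := by gcongr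
      _ = (‖(Polynomial.C a * Polynomial.X ^ k).eval z‖ * Real.exp (W m1 z i)) * d2 := by ring
      _ ≤ (d1 * Real.exp (W n z i)) * d2 := by gcongr
      _ = _ := by ring

include H0 H2 in
lemma wpoly_mem (p : Polynomial ℂ) (f : ℂ → Fin q → ℂ) (hf : f ∈ wspace W) :
    (fun z => p.eval z • f z) ∈ wspace W := by
  rw [mem_wspace] at hf ⊢
  refine ⟨p.differentiable.smul hf.1, fun n => ?_⟩
  obtain ⟨m, d, hd, h⟩ := poly_bound W H0 H2 p n
  obtain ⟨D, hD⟩ := hf.2 m
  refine ⟨|D| * d, fun z i => ?_⟩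
  have h1 := hD z i
  have h2 := h z i
  calc ‖(p.eval z • f z) i‖ = ‖p.eval z‖ * ‖f z i‖ := by simp
    _ ≤ ‖p.eval z‖ * (|D| * Real.exp (W m z i)) := by
        gcongr
        refine h1.trans ?_
        gcongr
        exact le_abs_self D
    _ = |D| * (‖p.eval z‖ * Real.exp (W m z i)) := by ring
    _ ≤ |D| * (d * Real.exp (W n z i)) := by gcongr
    _ = _ := by ring

/-- multiplication by a polynomial as a linear map. -/
noncomputable def wmul (p : Polynomial ℂ) : wspace W →ₗ[ℂ] wspace W where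
  toFun f := ⟨fun z => p.eval z • (f : ℂ → Fin q → ℂ) z, wpoly_mem W H0 H2 p f f.2⟩
  map_add' f g := by
    apply Subtype.ext
    funext z
    simp
  map_smul' a f := by
    apply Subtype.ext
    funext z
    simp only [Submodule.coe_smul, Pi.smul_apply, RingHom.id_apply]
    rw [smul_comm]

lemma wmul_bounded (p : Polynomial ℂ) : Seminorm.IsBounded (fam W) (fam W) (wmul W H0 H2 p) := by
  apply Seminorm.IsBounded.of_real
  intro n
  obtain ⟨m, d, hd, h⟩ := poly_bound W H0 H2 p n
  refine ⟨{m}, d, fun f => ?_⟩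
  rw [Finset.sup_singleton]
  show snf W n (wmul W H0 H2 p f) ≤ d * snf W m f
  apply snf_le W n _ _ (mul_nonneg hd (snf_nonneg W m f))
  intro z i
  have h1 := le_snf W m f z i
  have h2 := h z i
  calc ‖((wmul W H0 H2 p f : wspace W) : ℂ → Fin q → ℂ) z i‖
      = ‖p.eval z‖ * ‖(f : ℂ → Fin q → ℂ) z i‖ := by
        show ‖(p.eval z • (f : ℂ → Fin q → ℂ) z) i‖ = _
        simp
    _ ≤ ‖p.eval z‖ * (snf W m f * Real.exp (W m z i)) := by gcongr
    _ = snf W m f * (‖p.eval z‖ * Real.exp (W m z i)) := by ring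
    _ ≤ snf W m f * (d * Real.exp (W n z i)) := by
        gcongr
        exact snf_nonneg W m f
    _ = _ := by ring

lemma w_t2 : @T2Space (wspace W) (wtop W) := by
  let := wtop W
  have hp := hws W
  have := hp.topologicalAddGroup
  have : T1Space (wspace W) := by
    apply hp.T1_of_separating
    intro f hf
    refine ⟨0, fun h0 => hf ?_⟩
    have h0' : snf W 0 f = 0 := h0
    apply Subtype.ext
    funext z i
    have := le_snf W 0 f z i
    rw [h0', zero_mul] at this
    exact norm_le_zero_iff.1 this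
  infer_instance

/-- the analytic module given by the weights. -/
noncomputable def wmodule : AnalyticModule q :=
  @AnalyticModule.mk q (wspace W) _ _ (wtop W)
    (by let := wtop W; exact (hws W).topologicalAddGroup)
    (by let := wtop W; exact (hws W).continuousSMul)
    (w_t2 W)
    (by let := wtop W; exact (hws W).toLocallyConvexSpace)
    (fun f => f.1)
    Subtype.val_injective
    (fun _ _ => rfl)
    (fun _ _ => rfl)
    (fun f => f.2.1)
    (fun p f => wmul W H0 H2 p f)
    (fun _ _ _ => rfl)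
    (fun p => by
      let := wtop W
      exact WithSeminorms.continuous_of_isBounded (hws W) (hws W) (wmul W H0 H2 p)
        (wmul_bounded W H0 H2 p))

include H1 in
lemma div_bound (n : ℕ) (f : wspace W) (lam : ℂ) (g : ℂ → Fin q → ℂ) (hg : Differentiable ℂ g)
    (hfg : ∀ z, (z - lam) • g z = (f : ℂ → Fin q → ℂ) z) (z : ℂ) (i : Fin q) :
    ‖g z i‖ ≤ (snf W n f * Real.exp (c n)) * Real.exp (W n z i) := by
  have hc : 0 ≤ c n := by
    have := H1 n z z i (by simp)
    linarith
  have hf0 := snf_nonneg W n f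
  have key : ∀ ζ : ℂ, 1 ≤ ‖ζ - lam‖ → ‖ζ - z‖ ≤ 2 →
      ‖g ζ i‖ ≤ (snf W n f * Real.exp (c n)) * Real.exp (W n z i) := by
    intro ζ h1 h2
    have h3 : ‖(f : ℂ → Fin q → ℂ) ζ i‖ = ‖ζ - lam‖ * ‖g ζ i‖ := by
      rw [← hfg ζ]
      simp
    have h4 := le_snf W n f ζ i
    rw [h3] at h4
    have h5 : W n ζ i ≤ W n z i + c n := H1 n z ζ i (by rw [norm_sub_rev]; exact h2)
    calc ‖g ζ i‖ ≤ ‖ζ - lam‖ * ‖g ζ i‖ := le_mul_of_one_le_left (norm_nonneg _) h1
      _ ≤ snf W n f * Real.exp (W n ζ i) := h4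
      _ ≤ snf W n f * Real.exp (W n z i + c n) := by gcongr
      _ = _ := by rw [Real.exp_add]; ring
  rcases le_or_gt 1 ‖z - lam‖ with h | h
  · exact key z h (by simp)
  · have hgi : Differentiable ℂ (fun z => g z i) := by
      intro z
      exact (differentiableAt_pi.1 (hg z)) i
    have hcl : z ∈ closure (Metric.ball lam 1) :=
      subset_closure (by rw [Metric.mem_ball, dist_eq_norm]; exact h)
    refine Complex.norm_le_of_forall_mem_frontier_norm_le (f := fun z => g z i)
      Metric.isBounded_ball hgi.diffContOnCl ?_ hcl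
    intro ζ hζ
    have hζ' : ‖ζ - lam‖ = 1 := by
      have := Metric.frontier_ball_subset_sphere hζ
      rwa [Metric.mem_sphere, dist_eq_norm] at this
    apply key ζ hζ'.ge
    calc ‖ζ - z‖ = ‖(ζ - lam) - (z - lam)‖ := by congr 1; ring
      _ ≤ ‖ζ - lam‖ + ‖z - lam‖ := norm_sub_le _ _
      _ ≤ 2 := by linarith

include H1 in
lemma wstable : UniformlyStable (wmodule W H0 H2) := by
  intro V hV
  let : TopologicalSpace (wspace W) := wtop W
  have hp := hws W
  obtain ⟨s, r, hr, hs⟩ := (hp.mem_nhds_iff 0 V).1 hV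
  set K : ℝ := ∑ n ∈ s, Real.exp (c n) + 1 with hK
  have hKpos : 0 < K := by
    have : 0 ≤ ∑ n ∈ s, Real.exp (c n) := Finset.sum_nonneg (fun n _ => (Real.exp_pos _).le)
    linarith
  have hKn : ∀ n ∈ s, Real.exp (c n) ≤ K := by
    intro n hn
    have := Finset.single_le_sum (f := fun n => Real.exp (c n))
      (fun n _ => (Real.exp_pos _).le) hn
    linarith
  refine ⟨(s.sup (fam W)).ball 0 (r / K), (hp.mem_nhds_iff 0 _).2 ⟨s, r / K, by positivity,
    subset_refl _⟩, ?_⟩
  intro lam f hf g hg hfg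
  obtain ⟨f', hf'⟩ : ∃ f' : wspace W, f' = f := ⟨f, rfl⟩
  have hfg' : ∀ z, (z - lam) • g z = (f' : ℂ → Fin q → ℂ) z := by
    intro z
    rw [hf']
    exact hfg z
  have hf1 : (s.sup (fam W)) f' < r / K := by
    have h := (Seminorm.mem_ball_zero (s.sup (fam W)) (y := f') (r := r / K)).1
    apply h
    rw [hf']
    exact hf
  have hgmem : g ∈ wspace W := by
    refine ⟨hg, fun n => ⟨_, fun z i => div_bound W c H1 n f' lam g hg hfg' z i⟩⟩
  refine ⟨(⟨g, hgmem⟩ : wspace W), hs ?_, rfl⟩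
  refine (Seminorm.mem_ball_zero (s.sup (fam W)) (y := (⟨g, hgmem⟩ : wspace W)) (r := r)).2 ?_
  apply Seminorm.finset_sup_apply_lt hr
  intro n hn
  have h1 : fam W n f' < r / K := lt_of_le_of_lt (Seminorm.le_finset_sup_apply hn) hf1
  have h1' : snf W n f' < r / K := h1
  show snf W n ⟨g, hgmem⟩ < r
  have h2 : snf W n ⟨g, hgmem⟩ ≤ snf W n f' * Real.exp (c n) :=
    snf_le W n _ _ (mul_nonneg (snf_nonneg W n f') (Real.exp_pos _).le)
      (fun z i => div_bound W c H1 n f' lam g hg hfg' z i)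
  calc snf W n ⟨g, hgmem⟩ ≤ snf W n f' * Real.exp (c n) := h2
    _ ≤ snf W n f' * K := mul_le_mul_of_nonneg_left (hKn n hn) (snf_nonneg W n f')
    _ < r / K * K := mul_lt_mul_of_pos_right h1' hKpos
    _ = r := by field_simp

lemma wcond3 : Condition3 (wmodule W H0 H2) := by
  intro n F
  let : TopologicalSpace (wspace W) := wtop W
  have hp := hws W
  obtain ⟨F', hF'⟩ : ∃ F' : Fin n → wspace W, F' = F := ⟨F, rfl⟩
  have hev : ∀ j, (wmodule W H0 H2).ev (F j) = ((F' j : wspace W) : ℂ → Fin q → ℂ) := by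
    intro j
    rw [hF']
    rfl
  simp only [hev]
  have hb : ∀ (m : ℕ) (f : ℂ → Fin q → ℂ),
      (∀ z i, ‖f z i‖ ≤ ∑ j, ‖((F' j : wspace W) : ℂ → Fin q → ℂ) z i‖) →
      ∀ z i, ‖f z i‖ ≤ (∑ j, snf W m (F' j)) * Real.exp (W m z i) := by
    intro m f hf z i
    refine (hf z i).trans ?_
    rw [Finset.sum_mul]
    exact Finset.sum_le_sum (fun j _ => le_snf W m (F' j) z i)
  refine ⟨?_, ?_⟩
  · intro f hf1 hf2
    exact ⟨(⟨f, ⟨hf1, fun m => ⟨_, hb m f hf2⟩⟩⟩ : wspace W), rfl⟩
  · refine hp.isVonNBounded_iff_seminorm_bounded.2 ?_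
    intro m
    have h0 : 0 ≤ ∑ j, snf W m (F' j) := Finset.sum_nonneg (fun j _ => snf_nonneg W m (F' j))
    refine ⟨∑ j, snf W m (F' j) + 1, by linarith, ?_⟩
    intro f hf
    have : snf W m f ≤ ∑ j, snf W m (F' j) := snf_le W m f _ h0 (hb m f.1 hf)
    show snf W m f < _
    linarith

end Weights

/-! ### The example -/

/-- the weights of the example: the first coordinate grows at most like
`exp (x^+ + ε |z|)`, the second one at most like `exp (π |y| + ε |z|^(1/2))`, for all `ε`. -/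
noncomputable def wt (n : ℕ) (z : ℂ) (i : Fin 2) : ℝ :=
  if i = 0 then max z.re 0 + ‖z‖ / (n + 1) else Real.pi * |z.im| + √‖z‖ / (n + 1)

lemma wt_zero (n : ℕ) (z : ℂ) : wt n z 0 = max z.re 0 + ‖z‖ / (n + 1) := by simp [wt]

lemma wt_one (n : ℕ) (z : ℂ) : wt n z 1 = Real.pi * |z.im| + √‖z‖ / (n + 1) := by simp [wt]

lemma wt_H0 : ∀ n m z i, n ≤ m → wt m z i ≤ wt n z i := by
  intro n m z i hnm
  have h1 : ((n : ℝ) + 1) ≤ (m : ℝ) + 1 := by
    have : (n : ℝ) ≤ m := by exact_mod_cast hnm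
    linarith
  have h0 : (0 : ℝ) < (n : ℝ) + 1 := by positivity
  fin_cases i
  · show wt m z 0 ≤ wt n z 0
    rw [wt_zero, wt_zero]
    gcongr
  · show wt m z 1 ≤ wt n z 1
    rw [wt_one, wt_one]
    gcongr

lemma wt_H1 : ∀ (n : ℕ) (z ζ : ℂ) (i : Fin 2), ‖z - ζ‖ ≤ 2 →
    wt n ζ i ≤ wt n z i + (fun _ : ℕ => (20 : ℝ)) n := by
  intro n z ζ i h
  have h0 : (1 : ℝ) ≤ (n : ℝ) + 1 := by
    have : (0 : ℝ) ≤ n := Nat.cast_nonneg n
    linarith
  have hpi := Real.pi_le_four
  have hpi0 := Real.pi_pos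
  have hnorm : ‖ζ‖ ≤ ‖z‖ + 2 := by
    have : ‖ζ‖ ≤ ‖z‖ + ‖z - ζ‖ := by
      have := norm_sub_norm_le ζ z
      rw [norm_sub_rev] at this
      linarith
    linarith
  fin_cases i
  · show wt n ζ 0 ≤ wt n z 0 + 20
    rw [wt_zero, wt_zero]
    have h1 : ζ.re ≤ z.re + 2 := by
      have := (Complex.abs_re_le_norm (z - ζ)).trans h
      rw [Complex.sub_re] at this
      have := (abs_le.1 this).1
      linarith
    have h2 : max ζ.re 0 ≤ max z.re 0 + 2 := by
      apply max_le
      · exact h1.trans (by linarith [le_max_left z.re 0])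
      · linarith [le_max_right z.re 0]
    have h3 : ‖ζ‖ / ((n : ℝ) + 1) ≤ ‖z‖ / ((n : ℝ) + 1) + 2 := by
      rw [div_add' _ _ _ (by positivity)]
      gcongr
      nlinarith
    linarith
  · show wt n ζ 1 ≤ wt n z 1 + 20
    rw [wt_one, wt_one]
    have h1 : |ζ.im| ≤ |z.im| + 2 := by
      have h4 := (Complex.abs_im_le_norm (z - ζ)).trans h
      rw [Complex.sub_im] at h4
      have h5 := abs_sub_abs_le_abs_sub ζ.im z.im
      rw [abs_sub_comm] at h5
      linarith
    have h3 : √‖ζ‖ / ((n : ℝ) + 1) ≤ √‖z‖ / ((n : ℝ) + 1) + 2 := by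
      have h4 : √‖ζ‖ ≤ √‖z‖ + 2 := by
        rw [Real.sqrt_le_iff]
        refine ⟨by positivity, ?_⟩
        have := Real.sq_sqrt (norm_nonneg z)
        nlinarith [Real.sqrt_nonneg ‖z‖]
      rw [div_add' _ _ _ (by positivity)]
      gcongr
      nlinarith
    nlinarith

lemma wt_H2 : ∀ n, ∃ m, ∃ d : ℝ, 0 ≤ d ∧ ∀ z i,
    ‖z‖ * Real.exp (wt m z i) ≤ d * Real.exp (wt n z i) := by
  intro n
  obtain ⟨κ, hκ⟩ : ∃ κ : ℝ, κ = 1 / ((n : ℝ) + 1) - 1 / ((n : ℝ) + 2) := ⟨_, rfl⟩
  have hκ0 : 0 < κ := by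
    rw [hκ, sub_pos]
    apply one_div_lt_one_div_of_lt
    · positivity
    · linarith
  refine ⟨n + 1, 1 / κ + 2 / κ ^ 2, by positivity, ?_⟩
  intro z i
  have hq : ∀ t : ℝ, 0 ≤ t → t ≤ 1 / κ * Real.exp (κ * t) := by
    intro t ht
    have h1 := Real.add_one_le_exp (κ * t)
    have h2 : κ * t ≤ Real.exp (κ * t) := by linarith
    calc t = 1 / κ * (κ * t) := by field_simp
      _ ≤ _ := by gcongr
  have hq2 : ∀ t : ℝ, 0 ≤ t → t ^ 2 ≤ 2 / κ ^ 2 * Real.exp (κ * t) := by
    intro t ht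
    have h1 := Real.quadratic_le_exp_of_nonneg (x := κ * t) (by positivity)
    have h2 : (κ * t) ^ 2 / 2 ≤ Real.exp (κ * t) := by
      have : 0 ≤ κ * t := by positivity
      linarith
    calc t ^ 2 = 2 / κ ^ 2 * ((κ * t) ^ 2 / 2) := by field_simp
      _ ≤ _ := by gcongr
  fin_cases i
  · show ‖z‖ * Real.exp (wt (n + 1) z 0) ≤ (1 / κ + 2 / κ ^ 2) * Real.exp (wt n z 0)
    rw [wt_zero, wt_zero]
    have h1 := hq ‖z‖ (norm_nonneg z)
    have h2 : max z.re 0 + ‖z‖ / ((n : ℝ) + 1) =
        κ * ‖z‖ + (max z.re 0 + ‖z‖ / (((n + 1 : ℕ) : ℝ) + 1)) := by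
      rw [hκ]
      push_cast
      have h3 : (n : ℝ) + 1 + 1 = (n : ℝ) + 2 := by ring
      rw [h3]
      ring
    rw [h2, Real.exp_add (κ * ‖z‖), ← mul_assoc]
    apply mul_le_mul_of_nonneg_right _ (Real.exp_pos _).le
    refine h1.trans ?_
    gcongr
    have : 0 ≤ 2 / κ ^ 2 := by positivity
    linarith
  · show ‖z‖ * Real.exp (wt (n + 1) z 1) ≤ (1 / κ + 2 / κ ^ 2) * Real.exp (wt n z 1)
    rw [wt_one, wt_one]
    have h1 := hq2 (√‖z‖) (Real.sqrt_nonneg _)
    rw [Real.sq_sqrt (norm_nonneg z)] at h1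
    have h2 : Real.pi * |z.im| + √‖z‖ / ((n : ℝ) + 1) =
        κ * √‖z‖ + (Real.pi * |z.im| + √‖z‖ / (((n + 1 : ℕ) : ℝ) + 1)) := by
      rw [hκ]
      push_cast
      have h3 : (n : ℝ) + 1 + 1 = (n : ℝ) + 2 := by ring
      rw [h3]
      ring
    rw [h2, Real.exp_add (κ * √‖z‖), ← mul_assoc]
    apply mul_le_mul_of_nonneg_right _ (Real.exp_pos _).le
    refine h1.trans ?_
    gcongr
    have : 0 ≤ 1 / κ := by positivity
    linarith

/-- the module `P` of the example. -/
noncomputable def PP : AnalyticModule 2 := wmodule wt wt_H0 wt_H2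

/-- the submodule `I` of the example: the two coordinates agree at the integers. -/
noncomputable def II : Submodule ℂ PP.E where
  carrier := {f | ∀ n : ℤ, PP.ev f n 0 = PP.ev f n 1}
  zero_mem' := fun n => rfl
  add_mem' := by
    intro f g hf hg n
    show PP.ev (f + g) n 0 = PP.ev (f + g) n 1
    rw [PP.ev_add]
    show PP.ev f n 0 + PP.ev g n 0 = PP.ev f n 1 + PP.ev g n 1
    rw [hf, hg]
  smul_mem' := by
    intro c f hf n
    show PP.ev (c • f) n 0 = PP.ev (c • f) n 1
    rw [PP.ev_smul]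
    show c * PP.ev f n 0 = c * PP.ev f n 1
    rw [hf]

lemma mem_II {f : PP.E} : f ∈ II ↔ ∀ n : ℤ, PP.ev f n 0 = PP.ev f n 1 := Iff.rfl

lemma II_sub : IsSubmodule PP II := by
  intro p f hf n
  rw [PP.ev_pmul]
  show p.eval (n : ℂ) * PP.ev f n 0 = p.eval (n : ℂ) * PP.ev f n 1
  rw [mem_II.1 hf]

lemma II_div : Divisorial PP II := by
  intro f
  constructor
  · intro hf lam
    refine ⟨1, fun _ _ => 1, fun _ => f, fun _ => analyticAt_const, fun _ => hf, ?_⟩
    filter_upwards with z
    simp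
  · intro hloc n
    obtain ⟨k, h, g, _, hg, hev⟩ := hloc (n : ℂ)
    have h1 := hev.self_of_nhds
    rw [h1]
    simp only [Finset.sum_apply, Pi.smul_apply, smul_eq_mul]
    apply Finset.sum_congr rfl
    intro m _
    rw [mem_II.1 (hg m) n]

/-- the element `(1, 1)`. -/
noncomputable def e1 : ℂ → Fin 2 → ℂ := fun _ _ => 1

/-- the element `(0, sin π z)`. -/
noncomputable def e2 : ℂ → Fin 2 → ℂ := fun z i => if i = 0 then 0 else Complex.sin (Real.pi * z)

lemma wt_nonneg (n : ℕ) (z : ℂ) (i : Fin 2) : 0 ≤ wt n z i := by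
  unfold wt
  split_ifs
  · have := le_max_right z.re 0
    positivity
  · have := Real.pi_pos
    positivity

lemma e1_mem : e1 ∈ wspace wt := by
  refine ⟨differentiable_const _, fun n => ⟨1, fun z i => ?_⟩⟩
  have h1 : ‖e1 z i‖ = 1 := by simp [e1]
  rw [h1, one_mul]
  exact Real.one_le_exp (wt_nonneg n z i)

lemma norm_sin_le (z : ℂ) : ‖Complex.sin (Real.pi * z)‖ ≤ Real.exp (Real.pi * |z.im|) := by
  have h := Pool.Agent.Helper428.PL.norm_sin_sq (Real.pi * z)
  have him : ((Real.pi : ℂ) * z).im = Real.pi * z.im := by simp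
  rw [him] at h
  apply le_of_sq_le_sq _ (Real.exp_pos _).le
  rw [h]
  have h1 : Real.sin ((Real.pi : ℂ) * z).re ^ 2 ≤ 1 := Real.sin_sq_le_one _
  have h2 := Real.cosh_sq (Real.pi * z.im)
  have h3 : Real.cosh (Real.pi * z.im) ≤ Real.exp (Real.pi * |z.im|) := by
    rw [← Real.cosh_abs, abs_mul, abs_of_pos Real.pi_pos, Real.cosh_eq]
    have : Real.exp (-(Real.pi * |z.im|)) ≤ Real.exp (Real.pi * |z.im|) := by
      apply Real.exp_le_exp.2
      have := Real.pi_pos
      nlinarith [abs_nonneg z.im]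
    linarith
  have h4 := Real.cosh_pos (Real.pi * z.im)
  nlinarith

lemma e2_mem : e2 ∈ wspace wt := by
  refine ⟨?_, fun n => ⟨1, fun z i => ?_⟩⟩
  · rw [differentiable_pi]
    intro i
    unfold e2
    by_cases hi : i = 0
    · simp only [if_pos hi]
      exact differentiable_const _
    · simp only [if_neg hi]
      exact (Complex.differentiable_sin.comp (differentiable_id.const_mul _))
  · rw [one_mul]
    by_cases hi : i = 0
    · have : e2 z i = 0 := by simp [e2, hi]
      rw [this, norm_zero]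
      positivity
    · have h1 : e2 z i = Complex.sin (Real.pi * z) := by simp [e2, hi]
      have h2 : wt n z i = Real.pi * |z.im| + √‖z‖ / (n + 1) := by simp [wt, hi]
      rw [h1, h2]
      refine (norm_sin_le z).trans (Real.exp_le_exp.2 ?_)
      have : 0 ≤ √‖z‖ / ((n : ℝ) + 1) := by positivity
      linarith

/-- `(1, 1)` as an element of `P`. -/
noncomputable def E1 : PP.E := (⟨e1, e1_mem⟩ : wspace wt)

/-- `(0, sin π z)` as an element of `P`. -/
noncomputable def E2 : PP.E := (⟨e2, e2_mem⟩ : wspace wt)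

lemma ev_E1 : PP.ev E1 = e1 := rfl

lemma ev_E2 : PP.ev E2 = e2 := rfl

lemma E1_mem : E1 ∈ II := fun _ => rfl

lemma E2_mem : E2 ∈ II := by
  intro n
  rw [ev_E2]
  have h1 : Complex.sin (Real.pi * (n : ℂ)) = 0 := by
    rw [mul_comm]
    exact Complex.sin_int_mul_pi n
  simp [e2, h1]

lemma localMem_analytic {lam : ℂ} {f : ℂ → Fin 2 → ℂ} (hf : LocalMem PP II lam f) (i : Fin 2) :
    AnalyticAt ℂ (fun z => f z i) lam := by
  obtain ⟨n, h, g, hh, hg, hev⟩ := hf
  have h1 : AnalyticAt ℂ (fun z => ∑ m, h m z * PP.ev (g m) z i) lam := by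
    apply Finset.analyticAt_fun_sum
    intro m _
    apply (hh m).mul
    have hd : Differentiable ℂ (fun z => PP.ev (g m) z i) := fun z =>
      (differentiableAt_pi.1 (PP.entire (g m) z)) i
    exact hd.analyticAt lam
  apply h1.congr
  filter_upwards [hev] with z hz
  rw [hz]
  simp

lemma II_rank : HasLocalRank PP II 2 := by
  constructor
  · refine ⟨1 / 2, ![e1, e2], ?_, ?_⟩
    · intro s
      fin_cases s
      · exact (II_div E1).1 E1_mem _
      · exact (II_div E2).1 E2_mem _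
    · intro h _ hrel
      have hsin : ∀ᶠ z : ℂ in 𝓝 (1 / 2), Complex.sin (Real.pi * z) ≠ 0 := by
        have hc : Continuous (fun z : ℂ => Complex.sin (Real.pi * z)) := by fun_prop
        apply hc.continuousAt.eventually_ne
        have : Complex.sin (Real.pi * (1 / 2)) = 1 := by
          have h2 : (Real.pi : ℂ) * (1 / 2) = Real.pi / 2 := by ring
          rw [h2, Complex.sin_pi_div_two]
        rw [this]
        exact one_ne_zero
      have h0 : ∀ᶠ z in 𝓝 (1 / 2 : ℂ), h 0 z = 0 := by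
        filter_upwards [hrel] with z hz
        have := congrFun hz 0
        simpa [Fin.sum_univ_two, e1, e2] using this
      have h1 : ∀ᶠ z in 𝓝 (1 / 2 : ℂ), h 1 z = 0 := by
        filter_upwards [hrel, h0, hsin] with z hz hz0 hz1
        have := congrFun hz 1
        simp [Fin.sum_univ_two, e1, e2, hz0] at this
        rcases this with h3 | h3
        · exact h3
        · exact absurd h3 hz1
      intro s
      fin_cases s
      · exact h0
      · exact h1
  · intro lam u hu hind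
    have hA : ∀ s i, AnalyticAt ℂ (fun z => u s z i) lam := fun s i => localMem_analytic (hu s) i
    -- the three minors vanish near `lam`
    have m1 := hind ![fun z => u 1 z 0 * u 2 z 1 - u 2 z 0 * u 1 z 1,
      fun z => u 2 z 0 * u 0 z 1 - u 0 z 0 * u 2 z 1,
      fun z => u 0 z 0 * u 1 z 1 - u 1 z 0 * u 0 z 1] (by
        intro s
        fin_cases s
        · exact ((hA 1 0).mul (hA 2 1)).sub ((hA 2 0).mul (hA 1 1))
        · exact ((hA 2 0).mul (hA 0 1)).sub ((hA 0 0).mul (hA 2 1))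
        · exact ((hA 0 0).mul (hA 1 1)).sub ((hA 1 0).mul (hA 0 1))) (by
        filter_upwards with z
        funext i
        fin_cases i <;> simp [Fin.sum_univ_three] <;> ring)
    have m01 : ∀ᶠ z in 𝓝 lam, u 0 z 0 * u 1 z 1 - u 1 z 0 * u 0 z 1 = 0 := m1 2
    -- relation built from the first coordinates
    have m2 := hind ![fun z => u 1 z 0, fun z => -(u 0 z 0), fun _ => 0] (by
        intro s
        fin_cases s
        · exact hA 1 0
        · exact (hA 0 0).neg
        · exact analyticAt_const) (by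
        filter_upwards [m01] with z hz
        funext i
        fin_cases i
        · simp [Fin.sum_univ_three]
          ring
        · simp [Fin.sum_univ_three]
          linear_combination -hz)
    have m3 := hind ![fun z => u 1 z 1, fun z => -(u 0 z 1), fun _ => 0] (by
        intro s
        fin_cases s
        · exact hA 1 1
        · exact (hA 0 1).neg
        · exact analyticAt_const) (by
        filter_upwards [m01] with z hz
        funext i
        fin_cases i
        · simp [Fin.sum_univ_three]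
          linear_combination hz
        · simp [Fin.sum_univ_three]
          ring)
    have m20 : ∀ᶠ z in 𝓝 lam, -(u 0 z 0) = 0 := m2 1
    have m30 : ∀ᶠ z in 𝓝 lam, -(u 0 z 1) = 0 := m3 1
    have m4 := hind ![fun _ => 1, fun _ => 0, fun _ => 0] (by
        intro s
        fin_cases s <;> exact analyticAt_const) (by
        filter_upwards [m20, m30] with z hz1 hz2
        funext i
        fin_cases i
        · simp [Fin.sum_univ_three]
          simpa using hz1
        · simp [Fin.sum_univ_three]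
          simpa using hz2)
    have m5 : ∀ᶠ z in 𝓝 lam, (1 : ℂ) = 0 := m4 0
    exact one_ne_zero m5.self_of_nhds

/-- the function `f = (e^z cosh (sqrt z), 0)`. -/
noncomputable def ff : ℂ → Fin 2 → ℂ := fun z i =>
  if i = 0 then Complex.exp z * Pool.Agent.Helper428.CoshSqrt.cs z else 0

lemma ff_mem : ff ∈ wspace wt := by
  refine ⟨?_, fun n => ?_⟩
  · rw [differentiable_pi]
    intro i
    unfold ff
    by_cases hi : i = 0
    · simp only [if_pos hi]
      exact Complex.differentiable_exp.mul Pool.Agent.Helper428.CoshSqrt.cs_diff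
    · simp only [if_neg hi]
      exact differentiable_const _
  · refine ⟨Real.exp ((n : ℝ) + 1), fun z i => ?_⟩
    by_cases hi : i = 0
    · have h1 : ff z i = Complex.exp z * Pool.Agent.Helper428.CoshSqrt.cs z := by simp [ff, hi]
      rw [h1, norm_mul, Complex.norm_exp]
      have h2 := Pool.Agent.Helper428.CoshSqrt.cs_upper z
      have h3 : √‖z‖ ≤ ‖z‖ / ((n : ℝ) + 1) + ((n : ℝ) + 1) := by
        have h0 : (0 : ℝ) < (n : ℝ) + 1 := by positivity
        rw [Real.sqrt_le_iff]
        refine ⟨by positivity, ?_⟩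
        have h4 : ‖z‖ / ((n : ℝ) + 1) * ((n : ℝ) + 1) = ‖z‖ := by field_simp
        have h5 : 0 ≤ ‖z‖ / ((n : ℝ) + 1) := by positivity
        nlinarith [norm_nonneg z]
      calc Real.exp z.re * ‖Pool.Agent.Helper428.CoshSqrt.cs z‖
          ≤ Real.exp z.re * Real.exp (√‖z‖) := by gcongr
        _ = Real.exp (z.re + √‖z‖) := by rw [Real.exp_add]
        _ ≤ Real.exp (((n : ℝ) + 1) + wt n z i) := by
            apply Real.exp_le_exp.2
            rw [hi, wt_zero]
            have := le_max_left z.re 0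
            linarith
        _ = _ := by rw [Real.exp_add]
    · have h1 : ff z i = 0 := by simp [ff, hi]
      rw [h1, norm_zero]
      positivity

/-- the function `f` as an element of `P`. -/
noncomputable def FF : PP.E := (⟨ff, ff_mem⟩ : wspace wt)

lemma ev_FF : PP.ev FF = ff := rfl

/-- the neighbourhood of zero used in the proof. -/
def VV : Set PP.E := ((fam wt) 7).ball 0 1

lemma VV_nhds : VV ∈ 𝓝 (0 : PP.E) := by
  let : TopologicalSpace (wspace wt) := wtop wt
  have hp := hws wt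
  have h : ((fam wt) 7).ball 0 1 ∈ 𝓝 (0 : wspace wt) := by
    rw [hp.mem_nhds_iff]
    refine ⟨{7}, 1, one_pos, ?_⟩
    rw [Finset.sup_singleton]
  exact h

lemma VV_bound {u : PP.E} (hu : u ∈ VV) (ζ : ℂ) (i : Fin 2) :
    ‖PP.ev u ζ i‖ ≤ Real.exp (wt 7 ζ i) := by
  obtain ⟨u', hu'⟩ : ∃ u' : wspace wt, u' = u := ⟨u, rfl⟩
  have h1 : snf wt 7 u' < 1 := by
    apply (Seminorm.mem_ball_zero ((fam wt) 7) (y := u') (r := 1)).1
    rw [hu']
    exact hu
  have h2 := le_snf wt 7 u' ζ i
  have h3 : PP.ev u = (u' : ℂ → Fin 2 → ℂ) := by rw [hu']; rfl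
  rw [h3]
  have h9 := Real.exp_pos (wt 7 ζ i)
  nlinarith

lemma PP_bound (u : PP.E) (η : ℝ) (hη : 0 < η) :
    ∃ D : ℝ, ∀ z : ℂ, ‖PP.ev u z 0‖ ≤ D * Real.exp (max z.re 0 + η * ‖z‖) := by
  obtain ⟨u', hu'⟩ : ∃ u' : wspace wt, u' = u := ⟨u, rfl⟩
  have h3 : PP.ev u = (u' : ℂ → Fin 2 → ℂ) := by rw [hu']; rfl
  rw [h3]
  obtain ⟨n, hn⟩ := exists_nat_gt (1 / η)
  obtain ⟨D, hD⟩ := u'.2.2 n
  refine ⟨|D|, fun ζ => ?_⟩
  have h9 := hD ζ 0
  rw [wt_zero] at h9
  refine h9.trans ?_
  have hn0 : 0 < (n : ℝ) + 1 := by positivity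
  have h10 : ‖ζ‖ / ((n : ℝ) + 1) ≤ η * ‖ζ‖ := by
    rw [div_le_iff₀ hn0]
    have h11 : 1 ≤ η * ((n : ℝ) + 1) := by
      rw [div_lt_iff₀ hη] at hn
      nlinarith
    nlinarith [norm_nonneg ζ]
  calc D * Real.exp (max ζ.re 0 + ‖ζ‖ / ((n : ℝ) + 1))
      ≤ |D| * Real.exp (max ζ.re 0 + ‖ζ‖ / ((n : ℝ) + 1)) := by
        gcongr
        exact le_abs_self D
    _ ≤ _ := by gcongr

/-- There are a uniformly stable module `P` of entire `ℂ²`-valued functions with condition (3) and a
divisorial submodule `I` of `P`, of local rank `2`, that is not over-saturated. -/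
theorem result : ∃ (P : AnalyticModule 2) (I : Submodule ℂ P.E),
    UniformlyStable P ∧ Condition3 P ∧ IsSubmodule P I ∧ Divisorial P I ∧ HasLocalRank P I 2 ∧
      ¬ OverSaturated P I 2 := by
  refine ⟨PP, II, wstable wt wt_H0 _ wt_H1 wt_H2, wcond3 wt wt_H0 wt_H2, II_sub, II_div, II_rank, ?_⟩
  intro hover
  obtain ⟨C₁, hC1, hkey⟩ := Pool.Agent.Helper428.PL.key_bound
  have hC0 : 0 < C₁ := by linarith
  have hsat := hover FF
  obtain ⟨B, hB⟩ := hsat VV VV_nhds (fun z => ((1 / (4 * C₁) : ℝ) : ℂ) * Complex.exp z)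
    (Complex.differentiable_exp.const_mul _) (by
      intro z
      -- lower bound for the majorant
      obtain ⟨ρ, hρ⟩ : ∃ ρ : ℝ, ρ = ‖ff z 0‖ / (C₁ * Real.exp (√(‖z‖ + 1) / 2)) := ⟨_, rfl⟩
      have hden : 0 < C₁ * Real.exp (√(‖z‖ + 1) / 2) := by positivity
      have hρ0 : 0 ≤ ρ := by rw [hρ]; positivity
      have hfirst : ‖((1 / (4 * C₁) : ℝ) : ℂ) * Complex.exp z‖ ≤ 1 + ρ := by
        rw [norm_mul, Complex.norm_real, Complex.norm_exp, Real.norm_of_nonneg (by positivity)]
        have hδ : 1 / (4 * C₁) ≤ 1 / 4 := by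
          apply one_div_le_one_div_of_le (by norm_num)
          linarith
        have hδ0 : 0 < 1 / (4 * C₁) := by positivity
        rcases le_or_gt z.re 0 with hz | hz
        · have : Real.exp z.re ≤ 1 := Real.exp_le_one_iff.2 hz
          nlinarith [Real.exp_pos z.re]
        · rcases lt_or_ge ‖z‖ 1 with hz1 | hz1
          · have h1 : z.re ≤ 1 := ((le_abs_self _).trans (Complex.abs_re_le_norm z)).trans hz1.le
            have h2 : Real.exp z.re ≤ 4 := by
              have := Real.exp_one_lt_d9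
              have h3 := Real.exp_le_exp.2 h1
              linarith
            nlinarith [Real.exp_pos z.re]
          · have h1 := Pool.Agent.Helper428.CoshSqrt.cs_lower z hz.le
            have h2 : √(‖z‖ + 1) / 2 ≤ √(‖z‖ / 2) := by
              apply Real.le_sqrt_of_sq_le
              rw [div_pow, Real.sq_sqrt (by positivity)]
              linarith
            have h3 : Real.exp (√(‖z‖ / 2)) / 4 ≤ Real.sinh (√(‖z‖ / 2)) := by
              rw [Real.sinh_eq]
              have h4 : 1 / 2 ≤ √(‖z‖ / 2) := by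
                apply Real.le_sqrt_of_sq_le
                norm_num
                linarith
              have h5 : 2 ≤ Real.exp (√(‖z‖ / 2)) * Real.exp (√(‖z‖ / 2)) := by
                rw [← Real.exp_add]
                have := Real.add_one_le_exp (√(‖z‖ / 2) + √(‖z‖ / 2))
                linarith
              have h6 : Real.exp (-√(‖z‖ / 2)) * Real.exp (√(‖z‖ / 2)) = 1 := by
                rw [← Real.exp_add]; simp
              have h7 := Real.exp_pos (√(‖z‖ / 2))
              have h8 : Real.exp (-√(‖z‖ / 2)) ≤ Real.exp (√(‖z‖ / 2)) / 2 := by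
                have : Real.exp (-√(‖z‖ / 2)) * Real.exp (√(‖z‖ / 2)) ≤
                    (Real.exp (√(‖z‖ / 2)) / 2) * Real.exp (√(‖z‖ / 2)) := by
                  rw [h6]; linarith
                exact le_of_mul_le_mul_right this h7
              linarith
            have h4 : ‖ff z 0‖ = Real.exp z.re * ‖Pool.Agent.Helper428.CoshSqrt.cs z‖ := by
              have : ff z 0 = Complex.exp z * Pool.Agent.Helper428.CoshSqrt.cs z := by simp [ff]
              rw [this, norm_mul, Complex.norm_exp]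
            have h5 : Real.exp (√(‖z‖ + 1) / 2) ≤ Real.exp (√(‖z‖ / 2)) := Real.exp_le_exp.2 h2
            have h6 : 1 / (4 * C₁) * Real.exp z.re ≤ ρ := by
              rw [hρ, le_div_iff₀ hden, h4]
              calc 1 / (4 * C₁) * Real.exp z.re * (C₁ * Real.exp (√(‖z‖ + 1) / 2))
                  = Real.exp z.re * (Real.exp (√(‖z‖ + 1) / 2) / 4) := by field_simp
                _ ≤ Real.exp z.re * ‖Pool.Agent.Helper428.CoshSqrt.cs z‖ := by
                    gcongr
                    linarith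
            linarith
      have hsecond : ENNReal.ofReal (1 + ρ) ≤ M PP II 2 FF VV z := by
        unfold M
        rw [ENNReal.ofReal_add zero_le_one hρ0, ENNReal.ofReal_one]
        gcongr
        apply le_sInf
        rintro x ⟨u, J, huI, hdet, rfl⟩
        apply ENNReal.ofReal_le_ofReal
        rw [ev_FF]
        -- the elements of `I ∩ V` are slowly growing in the first coordinate
        have hslow : ∀ s, ‖PP.ev (u s) z 0‖ ≤ C₁ * Real.exp (√(‖z‖ + 1) / 2) := by
          intro s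
          have hb7 := fun ζ i => VV_bound (huI s).2 ζ i
          have hdiff : Differentiable ℂ (PP.ev (u s)) := PP.entire (u s)
          apply hkey (fun ζ => PP.ev (u s) ζ 0) (fun ζ => PP.ev (u s) ζ 1)
            (fun ζ => (differentiableAt_pi.1 (hdiff ζ)) 0)
            (fun ζ => (differentiableAt_pi.1 (hdiff ζ)) 1)
          · intro ζ
            have := hb7 ζ 0
            rw [wt_zero] at this
            norm_num at this
            exact this
          · intro ζ
            have := hb7 ζ 1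
            rw [wt_one] at this
            norm_num at this
            exact this
          · exact PP_bound (u s)
          · exact (huI s).1
        have hJ0 : J 0 = 0 ∧ J 1 = 1 := by
          have : J 0 < J 1 := J.strictMono (by decide)
          constructor
          · ext
            have := this
            simp only [Fin.lt_def] at this
            simp
            omega
          · ext
            have := this
            simp only [Fin.lt_def] at this
            simp
            omega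
        have hcr : ff z 0 * detU (fun s => PP.ev (u s)) J z =
            ∑ s, detS (fun s => PP.ev (u s)) ff J s z * PP.ev (u s) z 0 := by
          unfold detU detS
          simp only [Fin.sum_univ_two, Matrix.det_fin_two, Matrix.updateCol_apply, mat, hJ0.1, hJ0.2]
          simp
          ring
        have hff : ff z 0 = ∑ s, detS (fun s => PP.ev (u s)) ff J s z /
            detU (fun s => PP.ev (u s)) J z * PP.ev (u s) z 0 := by
          calc ff z 0 = (ff z 0 * detU (fun s => PP.ev (u s)) J z) /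
                detU (fun s => PP.ev (u s)) J z := by field_simp
            _ = _ := by
              rw [hcr, Finset.sum_div]
              apply Finset.sum_congr rfl
              intro s _
              ring
        unfold cramerSum
        rw [hρ, div_le_iff₀ hden, hff]
        calc ‖∑ s, detS (fun s => PP.ev (u s)) ff J s z /
              detU (fun s => PP.ev (u s)) J z * PP.ev (u s) z 0‖
            ≤ ∑ s, ‖detS (fun s => PP.ev (u s)) ff J s z /
              detU (fun s => PP.ev (u s)) J z * PP.ev (u s) z 0‖ :=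
              norm_sum_le _ _
          _ ≤ ∑ s, ‖detS (fun s => PP.ev (u s)) ff J s z /
              detU (fun s => PP.ev (u s)) J z‖ * (C₁ * Real.exp (√(‖z‖ + 1) / 2)) := by
              apply Finset.sum_le_sum
              intro s _
              rw [norm_mul]
              exact mul_le_mul_of_nonneg_left (hslow s) (norm_nonneg _)
          _ = _ := by rw [Finset.sum_mul]
      exact (ENNReal.ofReal_le_ofReal hfirst).trans hsecond)
  -- the function is unbounded
  obtain ⟨x, hx⟩ := exists_nat_gt (4 * C₁ * B)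
  have h1 := hB (x : ℂ)
  rw [norm_mul, Complex.norm_real, Complex.norm_exp, Real.norm_of_nonneg (by positivity),
    Complex.natCast_re] at h1
  have h2 := Real.add_one_le_exp (x : ℝ)
  have h3 : Real.exp x ≤ 4 * C₁ * B := by
    have h4 : 1 / (4 * C₁) * Real.exp x * (4 * C₁) ≤ B * (4 * C₁) := by gcongr
    have h5 : 1 / (4 * C₁) * Real.exp x * (4 * C₁) = Real.exp x := by field_simp
    linarith
  linarith

end Pool.Agent.Results.MP_efa496_an.OverSaturation
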